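import Pool.Agent.Q189.Lp23

/-!
# The non-symmetric `L^p`-Mahler inequality for all `p > 0` at once, bodies with block symmetries

Split the coordinates of `ℝⁿ` into `j` nonempty blocks, of sizes `m₁ + … + m_j = n`, and let
`K₀ ⊂ ℝⁿ` be a convex body such that the membership of `x` in `K₀` depends only on the Euclidean
norms `|x₁|, …, |x_j|` of the blocks, that is, `K₀` is invariant under `O(m₁) × … × O(m_j)`.
Let `K = c + T K₀` be a nonsingular affine image of `K₀`, in any position with respect to the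
origin.

* For every `b > 1` there is `ε > 0` such that `M_p(K) ≥ (ρ(p)/b)ⁿ` for all `n`, all `j ≤ ε n`,
  all such `K` and ALL `p ∈ (0,∞)`; here `ρ(p)` is the exponential rate of Euclidean balls.
* For every `b < √(2π/e) = 1.52...` there is `ε > 0` such that for all `n ≥ 1`, all `j ≤ ε n`, all
  such `K` and all `p ∈ (0,∞)` one has `M_p(K) > bⁿ inf_x M_p(Δ_n - x)`.
-/

set_option autoImplicit false

noncomputable section

open MeasureTheory
open scoped ENNReal Matrix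

namespace Pool.Agent.Results.MP_5f4cdd_gt.BlockRadialBodies

/-- The `L^p`-Mahler volume `M_p(K) = vol(K) ∫ exp(-h_{p,K}(y)) dy` for `0 < p < ∞`, where
`exp(-h_{p,K}(y)) = ((1/vol K) ∫_K exp(p⟨x,y⟩) dx)^(-1/p)`. -/
def mahlerVolume {n : ℕ} (p : ℝ) (K : Set (Fin n → ℝ)) : ℝ≥0∞ :=
  volume K * ∫⁻ y : Fin n → ℝ, ENNReal.ofReal
    (((∫ x in K, Real.exp (p * ∑ i, x i * y i)) / (volume K).toReal) ^ (-(1 / p)))

/-- the standard simplex `Δ_n` -/
def simplex (n : ℕ) : Set (Fin n → ℝ) := {z | (∀ i, 0 ≤ z i) ∧ ∑ i, z i ≤ 1}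

/-- the infimum of `M_p(Δ_n - x)` over `x ∈ Δ_n` -/
def simplexInf (n : ℕ) (p : ℝ) : ℝ≥0∞ :=
  ⨅ x ∈ simplex n, mahlerVolume p ((fun z : Fin n → ℝ => z - x) '' simplex n)

/-- the Euclidean norm of the `i`-th block of `x`; the map `β` splits the coordinates into blocks -/
def blockNorm {n j : ℕ} (β : Fin n → Fin j) (i : Fin j) (x : Fin n → ℝ) : ℝ :=
  √(∑ a ∈ Finset.univ.filter (fun a => β a = i), x a ^ 2)

/-- convex bodies `K₀` for which the membership of `x` depends only on the norms of the blocks -/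
def IsBlockRadial {n j : ℕ} (β : Fin n → Fin j) (K₀ : Set (Fin n → ℝ)) : Prop :=
  Convex ℝ K₀ ∧ IsCompact K₀ ∧ (interior K₀).Nonempty ∧
    ∀ x y : Fin n → ℝ, (∀ i, blockNorm β i x = blockNorm β i y) → x ∈ K₀ → y ∈ K₀

/-- the nonsingular affine images (in any position with respect to the origin) of the bodies that
are block-radial for some splitting of the coordinates into `j` nonempty blocks -/
def HasBlockSymmetry (n j : ℕ) (K : Set (Fin n → ℝ)) : Prop :=
  ∃ (β : Fin n → Fin j) (K₀ : Set (Fin n → ℝ)) (T : Matrix (Fin n) (Fin n) ℝ) (c : Fin n → ℝ),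
    Function.Surjective β ∧ IsBlockRadial β K₀ ∧ T.det ≠ 0 ∧ K = (fun u => c + T *ᵥ u) '' K₀

/-- the rate `ρ(p) = 2π (1+1/p)^((1+1/p)/2) p^(1/(2p))` of the Euclidean balls -/
def ballRate (p : ℝ) : ℝ :=
  2 * Real.pi * ((1 + 1 / p) ^ ((1 + 1 / p) / 2) * p ^ (1 / (2 * p)))

/-- **The non-symmetric `L^p`-Mahler inequality for bodies with block symmetries.** -/
theorem result :
    -- the lower bound `(ρ(p)/b)ⁿ`, for every `b > 1`
    (∀ b : ℝ, 1 < b → ∃ ε : ℝ, 0 < ε ∧ ∀ n j : ℕ, (j:ℝ) ≤ ε * n → ∀ p : ℝ, 0 < p →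
      ∀ K : Set (Fin n → ℝ), HasBlockSymmetry n j K →
        ENNReal.ofReal ((ballRate p / b) ^ n) ≤ mahlerVolume p K) ∧
    -- the inequality of Q1 with an exponential gap
    (∀ b : ℝ, 0 < b → b < √(2 * Real.pi / Real.exp 1) → ∃ ε : ℝ, 0 < ε ∧ ∀ n j : ℕ, 1 ≤ n →
      (j:ℝ) ≤ ε * n → ∀ p : ℝ, 0 < p → ∀ K : Set (Fin n → ℝ), HasBlockSymmetry n j K →
        ENNReal.ofReal (b ^ n) * simplexInf n p < mahlerVolume p K) := by
  constructor
  · intro b hb
    obtain ⟨ε, hε, h⟩ := Pool.Agent.Q189.LpE.block_pos hb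
    refine ⟨ε, hε, fun n j hj p hp K hK => ?_⟩
    obtain ⟨β, K₀, T, c, hβ, ⟨h1, h2, h3, h4⟩, hT, rfl⟩ := hK
    exact h n j β hβ hj K₀ h2 h1 h3
      (fun x y hxy hx => h4 x y (fun i => congrArg Real.sqrt (hxy i)) hx) T c hT p hp
  · intro b hb0 hb
    obtain ⟨ε, hε, h⟩ := Pool.Agent.Q189.LpE.block_gap hb0 hb
    refine ⟨ε, hε, fun n j hn hj p hp K hK => ?_⟩
    obtain ⟨β, K₀, T, c, hβ, ⟨h1, h2, h3, h4⟩, hT, rfl⟩ := hK
    exact h n j β hn hβ hj K₀ h2 h1 h3
      (fun x y hxy hx => h4 x y (fun i => congrArg Real.sqrt (hxy i)) hx) T c hT p hp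

end Pool.Agent.Results.MP_5f4cdd_gt.BlockRadialBodies

end
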