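import Pool.Agent.Q189.Lp6

/-!
# The non-symmetric `L^p`-Mahler inequality for all `p > 0` at once, bodies inside an ellipsoid

Let `K ⊂ ℝⁿ` be a convex body, in any position with respect to the origin, inside an ellipsoid `E`
with any centre.  For every `p > 0` one has
`M_p(K) ≥ (|K|/|E|) ρ(p)ⁿ / √(π(n+2))`, where `ρ(p)` is the exponential rate of Euclidean balls.
For every `b < √(2π/e) = 1.52...` there is `n₀` such that for all `n ≥ n₀`, all `p > 0` and all
convex bodies `K ⊂ ℝⁿ` inside an ellipsoid of volume at most `bⁿ |K|` the inequality of Q1 holds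
strictly.
-/

set_option autoImplicit false

noncomputable section

open MeasureTheory
open scoped ENNReal Matrix

namespace Pool.Agent.Results.MP_5f4cdd_gt.InsideEllipsoids

/-- convex bodies in `ℝⁿ` (in any position) -/
def Body {n : ℕ} (K : Set (Fin n → ℝ)) : Prop := Convex ℝ K ∧ IsCompact K ∧ (interior K).Nonempty

/-- The `L^p`-Mahler volume `M_p(K) = vol(K) ∫ exp(-h_{p,K}(y)) dy` for `0 < p < ∞`, where
`exp(-h_{p,K}(y)) = ((1/vol K) ∫_K exp(p⟨x,y⟩) dx)^(-1/p)`. -/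
def mahlerVolume {n : ℕ} (p : ℝ) (K : Set (Fin n → ℝ)) : ℝ≥0∞ :=
  volume K * ∫⁻ y : Fin n → ℝ, ENNReal.ofReal
    (((∫ x in K, Real.exp (p * ∑ i, x i * y i)) / (volume K).toReal) ^ (-(1 / p)))

/-- the standard simplex `Δ_n` -/
def simplex (n : ℕ) : Set (Fin n → ℝ) := {z | (∀ i, 0 ≤ z i) ∧ ∑ i, z i ≤ 1}

/-- the infimum of `M_p(Δ_n - x)` over `x ∈ Δ_n` -/
def simplexInf (n : ℕ) (p : ℝ) : ℝ≥0∞ :=
  ⨅ x ∈ simplex n, mahlerVolume p ((fun z : Fin n → ℝ => z - x) '' simplex n)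

/-- the ellipsoid `c + T B`, where `B` is the closed Euclidean unit ball of `ℝⁿ` -/
def ellipsoid {n : ℕ} (T : Matrix (Fin n) (Fin n) ℝ) (c : Fin n → ℝ) : Set (Fin n → ℝ) :=
  (fun u => c + T *ᵥ u) '' {u : Fin n → ℝ | ∑ i, u i ^ 2 ≤ 1}

/-- `K` lies in an ellipsoid (with any centre) of volume at most `bⁿ |K|` -/
def RatioAtMost {n : ℕ} (b : ℝ) (K : Set (Fin n → ℝ)) : Prop :=
  ∃ (T : Matrix (Fin n) (Fin n) ℝ) (c : Fin n → ℝ), K ⊆ ellipsoid T c ∧
    volume (ellipsoid T c) ≤ ENNReal.ofReal (b ^ n) * volume K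

/-- the rate `ρ(p) = 2π (1+1/p)^((1+1/p)/2) p^(1/(2p))` of the Euclidean balls -/
def ballRate (p : ℝ) : ℝ :=
  2 * Real.pi * ((1 + 1 / p) ^ ((1 + 1 / p) / 2) * p ^ (1 / (2 * p)))

/-- the rate `r(p) = e^(1+1/p) p^(1/p) Γ(1+1/p)`, the limit of the `n`-th roots of the infima
`inf_x M_p(Δ_n - x)` -/
def rate (p : ℝ) : ℝ := Real.exp (1 + 1 / p) * p ^ (1 / p) * Real.Gamma (1 + 1 / p)

/-- **The non-symmetric `L^p`-Mahler inequality for bodies inside an ellipsoid.** -/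
theorem result :
    -- the lower bound, for all dimensions, all `p`, all bodies in all positions
    (∀ n : ℕ, 1 ≤ n → ∀ p : ℝ, 0 < p → ∀ K : Set (Fin n → ℝ), Body K →
      ∀ (T : Matrix (Fin n) (Fin n) ℝ) (c : Fin n → ℝ), K ⊆ ellipsoid T c →
        ENNReal.ofReal (ballRate p ^ n / √(Real.pi * (n + 2))) * volume K ≤
          volume (ellipsoid T c) * mahlerVolume p K) ∧
    -- the inequality of Q1 in high dimensions, for all `p` simultaneously
    (∀ b : ℝ, 0 < b → b < √(2 * Real.pi / Real.exp 1) → ∃ n₀ : ℕ, ∀ n : ℕ, n₀ ≤ n →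
      ∀ p : ℝ, 0 < p → ∀ K : Set (Fin n → ℝ), Body K → RatioAtMost b K →
        simplexInf n p < mahlerVolume p K) ∧
    -- the inequality of Q1 in high dimensions for a given `p`
    (∀ p b : ℝ, 0 < p → 0 < b → b * rate p < ballRate p → ∃ n₀ : ℕ, ∀ n : ℕ, n₀ ≤ n →
      ∀ K : Set (Fin n → ℝ), Body K → RatioAtMost b K → simplexInf n p < mahlerVolume p K) ∧
    -- the comparison of the two rates
    (∀ p : ℝ, 0 < p → √(2 * Real.pi / Real.exp 1) * rate p ≤ ballRate p) := by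
  have hvol : ∀ {n : ℕ} {K : Set (Fin n → ℝ)}, Body K → volume K ≠ 0 := fun {n K} hK h0 => by
    obtain ⟨x, hx⟩ := hK.2.2
    have h1 : 0 < volume (interior K) := isOpen_interior.measure_pos volume ⟨x, hx⟩
    have h2 := measure_mono (μ := volume) (interior_subset (s := K))
    rw [h0] at h2
    exact absurd h1 (not_lt.2 h2)
  have hrates : ∀ p : ℝ, 0 < p → √(2 * Real.pi / Real.exp 1) * rate p ≤ ballRate p := by
    intro p hp
    have h1 := Pool.Agent.Q189.LpE.eps_le_ro hp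
    have h2 : √(2 * Real.pi / Real.exp 1) * √(Real.exp 1 / (2 * Real.pi)) = 1 := by
      rw [← Real.sqrt_mul (by positivity)]
      have : 2 * Real.pi / Real.exp 1 * (Real.exp 1 / (2 * Real.pi)) = 1 := by field_simp
      rw [this, Real.sqrt_one]
    calc √(2 * Real.pi / Real.exp 1) * rate p
        ≤ √(2 * Real.pi / Real.exp 1) * (√(Real.exp 1 / (2 * Real.pi)) * ballRate p) := by
          gcongr
          exact h1
      _ = ballRate p := by rw [← mul_assoc, h2, one_mul]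
  refine ⟨?_, ?_, ?_, hrates⟩
  · intro n hn p hp K hK T c hKT
    exact Pool.Agent.Q189.LpE.MV_ge hn hK.2.1 (hvol hK) hKT hp
  · intro b hb0 hb
    obtain ⟨b', hb1, hb2⟩ := exists_between hb
    obtain ⟨n1, h1⟩ := Pool.Agent.Q189.LpE.MV_ge_pow hb0 hb1
    obtain ⟨n2, h2⟩ := Pool.Agent.Q189.LpE.II_unif (hb0.trans hb1) hb2
    refine ⟨max n1 n2, fun n hn p hp K hK hR => ?_⟩
    exact lt_of_lt_of_le (h2 n ((le_max_right _ _).trans hn) p hp)
      (h1 n ((le_max_left _ _).trans hn) p hp K hK.2.1 (hvol hK) hR)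
  · intro p b hp hb0 hb
    have hr : 0 < rate p := Pool.Agent.TH649.LP.eps_pos hp
    have h0 : b < ballRate p / rate p := (lt_div_iff₀ hr).2 hb
    obtain ⟨b', hb1, hb2⟩ := exists_between h0
    have hb' : 0 < b' := hb0.trans hb1
    obtain ⟨n1, h1⟩ := Pool.Agent.Q189.LpE.MV_ge_pow hb0 hb1
    have h3 : Pool.Agent.TH649.LP.eps p < ballRate p / b' := by
      rw [lt_div_iff₀ hb']
      have := (lt_div_iff₀ hr).1 hb2
      rw [mul_comm]
      exact this
    obtain ⟨n2, h2⟩ := Pool.Agent.TH649.LP.II_lt hp h3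
    refine ⟨max n1 n2, fun n hn K hK hR => ?_⟩
    exact lt_of_lt_of_le (h2 n ((le_max_right _ _).trans hn))
      (h1 n ((le_max_left _ _).trans hn) p hp K hK.2.1 (hvol hK) hR)

end Pool.Agent.Results.MP_5f4cdd_gt.InsideEllipsoids

end
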