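import Pool.Agent.Q233.MB.Gap

/-!
# The non-symmetric `L^p`-Mahler inequality for all `p > 0` at once, bodies of matrices

Identify `ℝ^(mn)` with the space of `m × n` matrices.  Let `L` be a convex body of matrices which
is invariant under left multiplication by the orthogonal group `O(m)` (for instance the unit ball
of a unitarily invariant norm, or any body described by the Gram matrix `AᵀA`), let `c + T L` be
a nonsingular affine image of `L`, and let `K` be a convex body contained in `c + T L` with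
`|c + T L| ≤ b^(mn) |K|`, `b ≥ 1`, in any position; no symmetry of `K` is required, and `b = 1`
gives the bodies `K = c + T L` themselves.

* If `m ≥ max(8, 2n+2)`, then `M_p(K) ≥ (ρ(p) / b^(2n+1))^(mn) m^(-14n³)` for ALL `p ∈ (0,∞)`;
  here `ρ(p)` is the exponential rate of Euclidean balls.
* For every `b₀ < √(2π/e) = 1.52...` there are `ε > 0` and `m₀` such that
  `M_p(K) > (b₀ / b^(2n+1))^(mn) inf_x M_p(Δ_(mn) - x)` for all `m ≥ m₀`, all `n` with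
  `n² log m ≤ ε m`, all such `K` and ALL `p ∈ (0,∞)`.
-/

set_option autoImplicit false

noncomputable section

open MeasureTheory
open scoped ENNReal Matrix

namespace Pool.Agent.Results.MP_5f4cdd_gt.MatrixBodies

/-- The `L^p`-Mahler volume `M_p(K) = vol(K) ∫ exp(-h_{p,K}(y)) dy` for `0 < p < ∞`, where
`exp(-h_{p,K}(y)) = ((1/vol K) ∫_K exp(p⟨x,y⟩) dx)^(-1/p)`. -/
def mahlerVolume {n : ℕ} (p : ℝ) (K : Set (Fin n → ℝ)) : ℝ≥0∞ :=
  volume K * ∫⁻ y : Fin n → ℝ, ENNReal.ofReal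
    (((∫ x in K, Real.exp (p * ∑ i, x i * y i)) / (volume K).toReal) ^ (-(1 / p)))

/-- the standard simplex `Δ_n` -/
def simplex (n : ℕ) : Set (Fin n → ℝ) := {z | (∀ i, 0 ≤ z i) ∧ ∑ i, z i ≤ 1}

/-- the infimum of `M_p(Δ_n - x)` over `x ∈ Δ_n` -/
def simplexInf (n : ℕ) (p : ℝ) : ℝ≥0∞ :=
  ⨅ x ∈ simplex n, mahlerVolume p ((fun z : Fin n → ℝ => z - x) '' simplex n)

/-- convex bodies -/
def IsBody {n : ℕ} (K : Set (Fin n → ℝ)) : Prop :=
  Convex ℝ K ∧ IsCompact K ∧ (interior K).Nonempty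

/-- the `m × n` matrix with the entries `x` -/
def mat (m n : ℕ) (x : Fin (m * n) → ℝ) : Matrix (Fin m) (Fin n) ℝ :=
  Matrix.of fun i j => x (finProdFinEquiv (i, j))

/-- convex bodies of `m × n` matrices invariant under left multiplication by `O(m)` -/
def IsOrthInvariant (m n : ℕ) (L : Set (Fin (m * n) → ℝ)) : Prop :=
  IsBody L ∧ ∀ U : Matrix (Fin m) (Fin m) ℝ, U * Uᵀ = 1 → ∀ x y : Fin (m * n) → ℝ,
    mat m n y = U * mat m n x → x ∈ L → y ∈ L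

/-- `K` is a convex body contained in a nonsingular affine image `E = c + T L` (in any position)
of an `O(m)`-invariant convex body `L` of `m × n` matrices, with `|E| ≤ b^(mn) |K|` -/
def NearMatrixBody (m n : ℕ) (b : ℝ) (K : Set (Fin (m * n) → ℝ)) : Prop :=
  IsBody K ∧ ∃ (L : Set (Fin (m * n) → ℝ)) (T : Matrix (Fin (m * n)) (Fin (m * n)) ℝ)
    (c : Fin (m * n) → ℝ), IsOrthInvariant m n L ∧ T.det ≠ 0 ∧
      K ⊆ (fun u => c + T *ᵥ u) '' L ∧
      volume ((fun u => c + T *ᵥ u) '' L) ≤ ENNReal.ofReal (b ^ (m * n)) * volume K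

/-- the rate `ρ(p) = 2π (1+1/p)^((1+1/p)/2) p^(1/(2p))` of the Euclidean balls -/
def ballRate (p : ℝ) : ℝ :=
  2 * Real.pi * ((1 + 1 / p) ^ ((1 + 1 / p) / 2) * p ^ (1 / (2 * p)))

/-- **The non-symmetric `L^p`-Mahler inequality for bodies of matrices.** -/
theorem result :
    -- the lower bound `(ρ(p) / b^(2n+1))^(mn) m^(-14n³)`
    (∀ m n : ℕ, 1 ≤ n → 2 * n + 2 ≤ m → 8 ≤ m → ∀ b : ℝ, 1 ≤ b →
      ∀ K : Set (Fin (m * n) → ℝ), NearMatrixBody m n b K → ∀ p : ℝ, 0 < p →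
        ENNReal.ofReal ((ballRate p / b ^ (2 * n + 1)) ^ (m * n) / (m : ℝ) ^ (14 * n ^ 3)) ≤
          mahlerVolume p K) ∧
    -- the inequality of Q1 with an exponential gap
    (∀ b₀ : ℝ, 0 < b₀ → b₀ < √(2 * Real.pi / Real.exp 1) → ∃ ε : ℝ, 0 < ε ∧ ∃ m₀ : ℕ,
      ∀ m n : ℕ, m₀ ≤ m → 1 ≤ n → (n : ℝ) ^ 2 * Real.log m ≤ ε * m → ∀ b : ℝ, 1 ≤ b →
      ∀ K : Set (Fin (m * n) → ℝ), NearMatrixBody m n b K → ∀ p : ℝ, 0 < p →
        ENNReal.ofReal ((b₀ / b ^ (2 * n + 1)) ^ (m * n)) * simplexInf (m * n) p <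
          mahlerVolume p K) := by
  constructor
  · intro m n hn hm hm8 b hb K hK p hp
    obtain ⟨⟨hKv, hKc, hKi⟩, L, T, c, ⟨⟨h1, h2, h3⟩, h4⟩, hT, hKL, hvol⟩ := hK
    exact Pool.Agent.Q233.MB.body_ge h2 h1 h3 h4 hn hm hm8 hT c hKc hKv hKi hKL hb hvol hp
  · intro b₀ hb₀ hb₀'
    obtain ⟨ε, hε, m₀, h⟩ := Pool.Agent.Q233.MB.body_gap hb₀ hb₀'
    refine ⟨ε, hε, m₀, fun m n hm hn hc b hb K hK p hp => ?_⟩
    obtain ⟨⟨hKv, hKc, hKi⟩, L, T, c, ⟨⟨h1, h2, h3⟩, h4⟩, hT, hKL, hvol⟩ := hK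
    exact h m n hm hn hc L h2 h1 h3 h4 T c hT K hKc hKv hKi hKL b hb hvol p hp

end Pool.Agent.Results.MP_5f4cdd_gt.MatrixBodies

end
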