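import Pool.Agent.Q76.MP.D

/-!
# The non-symmetric `L^p`-Mahler inequality: Gaussian moments, bodies close to a parallelotope

Let `K ⊂ ℝⁿ` be a convex body in any position, `A` an invertible matrix and `c` a point.  For every
`p > 0` one has `M_p(K) ≥ |K| |det A| (ρ(p)/√(2π))ⁿ / (mean over K of exp(p|A(x-c)|²/2))^(1/p)`,
where `ρ(p)` is the exponential rate of Euclidean balls.  Consequently, in high dimensions, the
inequality of Q1 holds strictly for all `p ≤ q` for every body which satisfies a moment condition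
with exponent `q` and a constant `θ > √e`; and it holds strictly for ALL `p > 0` for every convex
body which lies in a parallelotope of volume at most `(21/20)ⁿ |K|`.
-/

set_option autoImplicit false

noncomputable section

open MeasureTheory
open scoped ENNReal Matrix

namespace Pool.Agent.Results.MP_5f4cdd_gt.NearParallelotopes

/-- convex bodies in `ℝⁿ` (in any position) -/
def Body {n : ℕ} (K : Set (Fin n → ℝ)) : Prop := Convex ℝ K ∧ IsCompact K ∧ (interior K).Nonempty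

/-- The `L^p`-Mahler volume `M_p(K) = vol(K) ∫ exp(-h_{p,K}(y)) dy` for `0 < p < ∞`, where
`exp(-h_{p,K}(y)) = ((1/vol K) ∫_K exp(p⟨x,y⟩) dx)^(-1/p)`. -/
def mahlerVolume {n : ℕ} (p : ℝ) (K : Set (Fin n → ℝ)) : ℝ≥0∞ :=
  volume K * ∫⁻ y : Fin n → ℝ, ENNReal.ofReal
    (((∫ x in K, Real.exp (p * ∑ i, x i * y i)) / (volume K).toReal) ^ (-(1 / p)))

/-- the standard simplex `Δ_n` -/
def simplex (n : ℕ) : Set (Fin n → ℝ) := {z | (∀ i, 0 ≤ z i) ∧ ∑ i, z i ≤ 1}

/-- the infimum of `M_p(Δ_n - x)` over `x ∈ Δ_n` -/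
def simplexInf (n : ℕ) (p : ℝ) : ℝ≥0∞ :=
  ⨅ x ∈ simplex n, mahlerVolume p ((fun z : Fin n → ℝ => z - x) '' simplex n)

/-- the rate `ρ(p) = 2π (1+1/p)^((1+1/p)/2) p^(1/(2p))` of the Euclidean balls -/
def ballRate (p : ℝ) : ℝ :=
  2 * Real.pi * ((1 + 1 / p) ^ ((1 + 1 / p) / 2) * p ^ (1 / (2 * p)))

/-- the squared Euclidean length of `A (x - c)` -/
def sqLen {n : ℕ} (A : Matrix (Fin n) (Fin n) ℝ) (c x : Fin n → ℝ) : ℝ :=
  ∑ i, (A *ᵥ (x - c)) i ^ 2

/-- the Gaussian moment `(1/vol K) ∫_K exp (q |A (x - c)|² / 2) dx` -/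
def gaussMoment {n : ℕ} (q : ℝ) (A : Matrix (Fin n) (Fin n) ℝ) (c : Fin n → ℝ)
    (K : Set (Fin n → ℝ)) : ℝ≥0∞ :=
  (volume K)⁻¹ * ∫⁻ x in K, ENNReal.ofReal (Real.exp (q / 2 * sqLen A c x))

/-- The moment condition with constant `θ` and exponent `q`: in some affine position `A (K - c)`
the body has volume at least `θⁿ` times the `q`-th root of its Gaussian moment. -/
def MomentCondition {n : ℕ} (θ q : ℝ) (K : Set (Fin n → ℝ)) : Prop :=
  ∃ (A : Matrix (Fin n) (Fin n) ℝ) (c : Fin n → ℝ), A.det ≠ 0 ∧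
    ENNReal.ofReal (θ ^ n) * gaussMoment q A c K ^ (1 / q) ≤ ENNReal.ofReal |A.det| * volume K

/-- the parallelotope `c + T [-1,1]ⁿ` -/
def parallelotope {n : ℕ} (T : Matrix (Fin n) (Fin n) ℝ) (c : Fin n → ℝ) : Set (Fin n → ℝ) :=
  (fun u => c + T *ᵥ u) '' {u : Fin n → ℝ | ∀ i, |u i| ≤ 1}

/-- `K` lies in a parallelotope (with any centre) of volume at most `bⁿ |K|` -/
def NearParallelotope {n : ℕ} (b : ℝ) (K : Set (Fin n → ℝ)) : Prop :=
  ∃ (T : Matrix (Fin n) (Fin n) ℝ) (c : Fin n → ℝ), K ⊆ parallelotope T c ∧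
    volume (parallelotope T c) ≤ ENNReal.ofReal (b ^ n) * volume K

/-- **The non-symmetric `L^p`-Mahler inequality: Gaussian moments and parallelotopes.** -/
theorem result :
    -- the lower bound, for all dimensions, all `p`, all bodies in all positions
    (∀ (n : ℕ) (p : ℝ), 0 < p → ∀ K : Set (Fin n → ℝ), Body K →
      ∀ (A : Matrix (Fin n) (Fin n) ℝ) (c : Fin n → ℝ), A.det ≠ 0 →
        ENNReal.ofReal (|A.det| * (ballRate p / √(2 * Real.pi)) ^ n) * volume K ≤
          mahlerVolume p K * gaussMoment p A c K ^ (1 / p)) ∧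
    -- the inequality of Q1 in high dimensions, for all `p ≤ q` simultaneously
    (∀ θ : ℝ, √(Real.exp 1) < θ → ∃ n₀ : ℕ, ∀ n : ℕ, n₀ ≤ n → ∀ (q : ℝ) (K : Set (Fin n → ℝ)),
      Body K → MomentCondition θ q K → ∀ p : ℝ, 0 < p → p ≤ q →
        simplexInf n p < mahlerVolume p K) ∧
    -- the moment condition passes to large subsets
    (∀ (n : ℕ) (θ q b : ℝ), 0 < θ → 0 < q → 0 < b → ∀ K L : Set (Fin n → ℝ), Body K →
      IsCompact L → K ⊆ L → volume L ≤ ENNReal.ofReal (b ^ n) * volume K →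
      MomentCondition θ q L → MomentCondition (θ / b ^ (1 + 1 / q)) q K) ∧
    -- the inequality of Q1 in high dimensions, for ALL `p`, for bodies close to a parallelotope
    (∃ n₀ : ℕ, ∀ n : ℕ, n₀ ≤ n → ∀ K : Set (Fin n → ℝ), Body K → NearParallelotope (21 / 20) K →
      ∀ p : ℝ, 0 < p → simplexInf n p < mahlerVolume p K) := by
  have hvol : ∀ {n : ℕ} {K : Set (Fin n → ℝ)}, Body K → volume K ≠ 0 := fun {n K} hK h0 => by
    obtain ⟨x, hx⟩ := hK.2.2
    have h1 : 0 < volume (interior K) := isOpen_interior.measure_pos volume ⟨x, hx⟩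
    have h2 := measure_mono (μ := volume) (interior_subset (s := K))
    rw [h0] at h2
    exact absurd h1 (not_lt.2 h2)
  have hmom : ∀ {n : ℕ} (q : ℝ) (A : Matrix (Fin n) (Fin n) ℝ) (c : Fin n → ℝ)
      (K : Set (Fin n → ℝ)), gaussMoment q A c K = Pool.Agent.Q76.MP.mom q A c K := by
    intro n q A c K
    unfold gaussMoment Pool.Agent.Q76.MP.mom
    congr 1
    refine lintegral_congr fun x => ?_
    congr 3
    unfold sqLen dotProduct
    exact Finset.sum_congr rfl fun i _ => sq _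
  have hsub : ∀ {n : ℕ} (θ q : ℝ) (K : Set (Fin n → ℝ)),
      MomentCondition θ q K ↔ Pool.Agent.Q76.MP.Sub θ q K := by
    intro n θ q K
    unfold MomentCondition Pool.Agent.Q76.MP.Sub
    simp only [hmom]
  refine ⟨?_, ?_, ?_, ?_⟩
  · intro n p hp K hK A c hA
    have h := Pool.Agent.Q76.MP.XX_gauss hK.2.1 (hvol hK) hA c hp
    rw [hmom]
    calc ENNReal.ofReal (|A.det| * (ballRate p / √(2 * Real.pi)) ^ n) * volume K
        ≤ (Pool.Agent.Q189.LpE.XX p K * Pool.Agent.Q76.MP.mom p A c K ^ (1 / p)) * volume K :=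
          mul_le_mul' h le_rfl
      _ = (volume K * Pool.Agent.Q189.LpE.XX p K) * Pool.Agent.Q76.MP.mom p A c K ^ (1 / p) := by
          ring
  · intro θ hθ
    obtain ⟨n₀, h⟩ := Pool.Agent.Q76.MP.crit_all hθ
    refine ⟨n₀, fun n hn q K hK hm p hp hpq => ?_⟩
    exact h n hn q K hK.2.1 (hvol hK) ((hsub θ q K).1 hm) p hp hpq
  · intro n θ q b hθ hq hb K L hK hL hKL hv hm
    exact (hsub _ _ _).2
      (((hsub _ _ _).1 hm).mono hθ hq hb hK.2.1 (hvol hK) hL hKL hv)
  · obtain ⟨n₀, h⟩ := Pool.Agent.Q76.MP.near_par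
    refine ⟨n₀, fun n hn K hK hP p hp => ?_⟩
    obtain ⟨T, c, h1, h2⟩ := hP
    exact h n hn T c K hK.2.1 hK.1 hK.2.2 h1 h2 p hp

end Pool.Agent.Results.MP_5f4cdd_gt.NearParallelotopes

end
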